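import Pool.Agent.K1H34.Had2.Stmts2

/-! Project PS (MP_d8b1b3_co), piece `S_NUM2`: the choice of `a`. -/

set_option autoImplicit false

namespace Pool.Agent.K1H16.Had2

lemma core (n N K b h : ℕ) (x L : ℝ) (hL : 444 ≤ L) (hxL : 100 * L ≤ x) (hn : (n : ℝ) = x ^ 14)
    (hN : (N : ℝ) ≤ L) (hK1 : 1 ≤ K) (hK : (K : ℝ) ≤ L) (hb1 : x ≤ b) (hb2 : (b : ℝ) ≤ 3 * x)
    (hh1 : x ^ 8 / 2 ≤ (h : ℝ)) (hh2 : (h : ℝ) ≤ 3 * x ^ 8) :
    ∃ a : ℕ, 3 ≤ a ∧ a ≤ n ∧ K ∣ a + 1 ∧ ¬ b ∣ a ∧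
      (a ^ 2 + 1) * (b ^ 2 + 1) * h +
        30 * N * (a ^ 2 * ((b ^ 2) ^ 3 + a ^ 2 * b ^ 2 + (a ^ 2) ^ 2)) ≤ n ∧
      x ^ 14 - x ^ 12 * L ^ 2 ≤ (a : ℝ) ^ 2 * (b : ℝ) ^ 2 * h := by
  have hx : (44400 : ℝ) ≤ x := by linarith
  have hx0 : (0 : ℝ) < x := by linarith
  have hx1 : (1 : ℝ) ≤ x := by linarith
  have hK1r : (1 : ℝ) ≤ K := by exact_mod_cast hK1
  have hN0 : (0 : ℝ) ≤ N := Nat.cast_nonneg N
  -- powers
  have p2 : (44400 : ℝ) * x ≤ x ^ 2 := by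
    rw [sq]
    exact mul_le_mul_of_nonneg_right hx hx0.le
  have p10 : x ^ 10 = x ^ 2 * x ^ 8 := by ring
  have p12 : x ^ 12 = x ^ 2 * x ^ 10 := by ring
  have p14 : x ^ 14 = x ^ 2 * x ^ 12 := by ring
  have e8 : 0 < x ^ 8 := by positivity
  have e10 : 0 < x ^ 10 := by positivity
  have e12 : 0 < x ^ 12 := by positivity
  have e14 : 0 < x ^ 14 := by positivity
  have e4 : 0 < x ^ 4 := by positivity
  have q2 : (10 ^ 6 : ℝ) ≤ x ^ 2 := by linarith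
  have q2L : 800 * L ≤ x ^ 2 := by linarith
  -- b
  have b1 : x ^ 2 ≤ (b : ℝ) ^ 2 := pow_le_pow_left₀ hx0.le hb1 2
  have b2 : (b : ℝ) ^ 2 ≤ 9 * x ^ 2 := by
    have := pow_le_pow_left₀ (Nat.cast_nonneg b) hb2 2
    calc (b : ℝ) ^ 2 ≤ (3 * x) ^ 2 := this
      _ = 9 * x ^ 2 := by ring
  set G : ℝ := ((b : ℝ) ^ 2 + 1) * h with hG
  have G1 : x ^ 10 / 2 ≤ G := by
    have := mul_le_mul (b1.trans (by linarith : (b : ℝ) ^ 2 ≤ (b : ℝ) ^ 2 + 1)) hh1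
      (by positivity) (by positivity)
    rw [hG]
    calc x ^ 10 / 2 = x ^ 2 * (x ^ 8 / 2) := by ring
      _ ≤ _ := this
  have G2 : G ≤ 30 * x ^ 10 := by
    have h1 : (b : ℝ) ^ 2 + 1 ≤ 9 * x ^ 2 + 1 := by linarith
    have := mul_le_mul h1 hh2 (Nat.cast_nonneg h) (by positivity)
    rw [hG]
    refine this.trans ?_
    have h2 : (9 * x ^ 2 + 1) * (3 * x ^ 8) = 27 * (x ^ 2 * x ^ 8) + 3 * x ^ 8 := by ring
    rw [h2, ← p10]
    have h3 : x ^ 8 ≤ x ^ 10 := by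
      rw [p10]
      exact le_mul_of_one_le_left e8.le (by linarith)
    linarith
  have G0 : 0 < G := lt_of_lt_of_le (by positivity) G1
  set B : ℝ := 400 * x ^ 12 * L with hB
  have B0 : 0 < B := by rw [hB]; positivity
  have B1 : B ≤ x ^ 14 / 2 := by
    rw [hB, p14]
    have := mul_le_mul_of_nonneg_left q2L e12.le
    linarith
  set A : ℝ := (x ^ 14 - B) / G - 1 with hA
  have AG : (A + 1) * G = x ^ 14 - B := by
    rw [hA]
    field_simp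
    ring
  have A1 : x ^ 4 / 64 ≤ A := by
    have h1 : (x ^ 4 / 64 + 1) * G ≤ x ^ 14 - B := by
      have h2 : (x ^ 4 / 64 + 1) * G ≤ (x ^ 4 / 64 + 1) * (30 * x ^ 10) :=
        mul_le_mul_of_nonneg_left G2 (by positivity)
      have h3 : (x ^ 4 / 64 + 1) * (30 * x ^ 10) = (30 / 64) * x ^ 14 + 30 * x ^ 10 := by ring
      have h4 : 30 * x ^ 10 ≤ (1 / 64) * x ^ 14 := by
        have h5 : x ^ 14 = x ^ 2 * (x ^ 2 * x ^ 10) := by ring
        have h6 : (10 ^ 6 : ℝ) * x ^ 10 ≤ x ^ 2 * x ^ 10 := mul_le_mul_of_nonneg_right q2 e10.le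
        have h7 : (10 ^ 6 : ℝ) * (x ^ 2 * x ^ 10) ≤ x ^ 2 * (x ^ 2 * x ^ 10) :=
          mul_le_mul_of_nonneg_right q2 (by positivity)
        rw [h5]
        linarith
      linarith
    rw [← AG] at h1
    have := le_of_mul_le_mul_right h1 G0
    linarith
  have A2 : A ≤ 2 * x ^ 4 := by
    have h1 : (A + 1) * G ≤ (2 * x ^ 4) * G := by
      rw [AG]
      have : (2 * x ^ 4) * (x ^ 10 / 2) ≤ (2 * x ^ 4) * G :=
        mul_le_mul_of_nonneg_left G1 (by positivity)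
      have h3 : (2 * x ^ 4) * (x ^ 10 / 2) = x ^ 14 := by ring
      linarith
    have := le_of_mul_le_mul_right h1 G0
    linarith
  have A0 : 0 < A := lt_of_lt_of_le (by positivity) A1
  set α : ℝ := Real.sqrt A with hα
  have αsq : α ^ 2 = A := Real.sq_sqrt A0.le
  have α0 : 0 ≤ α := Real.sqrt_nonneg _
  have α1 : x ^ 2 / 8 ≤ α := by
    apply Real.le_sqrt_of_sq_le
    calc (x ^ 2 / 8) ^ 2 = x ^ 4 / 64 := by ring
      _ ≤ A := A1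
  have α2 : α ≤ 2 * x ^ 2 := by
    apply Real.sqrt_le_iff.2
    refine ⟨by positivity, A2.trans ?_⟩
    calc 2 * x ^ 4 ≤ 4 * x ^ 4 := by linarith
      _ = (2 * x ^ 2) ^ 2 := by ring
  have αK : 10 * (K : ℝ) + 10 ≤ α := by
    have : 80 * (K : ℝ) + 80 ≤ x ^ 2 := by linarith
    linarith
  -- the choice of `a`
  have hex : ∃ a : ℕ, K ∣ a + 1 ∧ ¬ b ∣ a ∧ (a : ℝ) ≤ α ∧ α - 2 * K ≤ a := by
    set q : ℕ := ⌊(α + 1) / K⌋₊ with hq
    have hK0 : (0 : ℝ) < K := by linarith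
    have q1 : (q : ℝ) * K ≤ α + 1 := by
      have := Nat.floor_le (show (0 : ℝ) ≤ (α + 1) / K by positivity)
      rwa [le_div_iff₀ hK0] at this
    have q3 : α + 1 < ((q : ℝ) + 1) * K := by
      have := Nat.lt_floor_add_one ((α + 1) / K)
      rwa [div_lt_iff₀ hK0] at this
    have hq2 : 2 ≤ q := by
      by_contra hcon
      have h1 : (q : ℝ) ≤ 1 := by exact_mod_cast (by omega : q ≤ 1)
      have h2 := mul_le_mul_of_nonneg_right (show (q : ℝ) + 1 ≤ 2 by linarith) hK0.le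
      linarith
    obtain ⟨r, hr⟩ : ∃ r, q = r + 1 := ⟨q - 1, by omega⟩
    have hr1 : 1 ≤ r := by omega
    have hrK : 1 ≤ r * K := Nat.mul_pos (by omega) (by omega)
    have hqr : (q : ℝ) = r + 1 := by rw [hr]; push_cast; ring
    rw [hqr] at q1 q3
    have e1 : ((r : ℝ) + 1) * K = r * K + K := by ring
    have e2 : ((r : ℝ) + 1 + 1) * K = r * K + 2 * K := by ring
    rw [e1] at q1
    rw [e2] at q3
    by_cases hb : b ∣ (r + 1) * K - 1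
    · refine ⟨r * K - 1, ?_, ?_, ?_, ?_⟩
      · rw [Nat.sub_add_cancel hrK]
        exact Dvd.intro_left r rfl
      · intro hb'
        have h1 : (r + 1) * K - 1 = (r * K - 1) + K := by
          have : (r + 1) * K = r * K + K := by ring
          omega
        rw [h1] at hb
        have h2 : b ∣ K := (Nat.dvd_add_right hb').1 hb
        have h3 : b ≤ K := Nat.le_of_dvd (by omega) h2
        have h4 : (b : ℝ) ≤ K := by exact_mod_cast h3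
        linarith
      · rw [Nat.cast_sub hrK]
        push_cast
        linarith
      · rw [Nat.cast_sub hrK]
        push_cast
        linarith
    · have hrK' : 1 ≤ (r + 1) * K := Nat.mul_pos (by omega) (by omega)
      refine ⟨(r + 1) * K - 1, ?_, hb, ?_, ?_⟩
      · rw [Nat.sub_add_cancel hrK']
        exact Dvd.intro_left (r + 1) rfl
      · rw [Nat.cast_sub hrK']
        push_cast
        linarith
      · rw [Nat.cast_sub hrK']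
        push_cast
        linarith
  obtain ⟨a, ha1, ha2, ha3, ha4⟩ := hex
  have a0 : (0 : ℝ) ≤ a := Nat.cast_nonneg a
  have asq : (a : ℝ) ^ 2 ≤ A := by
    rw [← αsq]
    exact pow_le_pow_left₀ a0 ha3 2
  have asq2 : (a : ℝ) ^ 2 ≤ 2 * x ^ 4 := asq.trans A2
  have hmain : ((a : ℝ) ^ 2 + 1) * G ≤ x ^ 14 - B := by
    rw [← AG]
    exact mul_le_mul_of_nonneg_right (by linarith) G0.le
  refine ⟨a, ?_, ?_, ha1, ha2, ?_, ?_⟩
  · have : (3 : ℝ) ≤ a := by linarith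
    exact_mod_cast this
  · have h1 : (a : ℝ) ≤ n := by
      rw [hn]
      have h2 : 2 * x ^ 2 ≤ x ^ 14 := by
        have h3 : x ^ 14 = x ^ 2 * (x ^ 2 * x ^ 10) := by ring
        have h4 : (1 : ℝ) ≤ x ^ 10 := one_le_pow₀ hx1
        have h5 : x ^ 2 * 1 ≤ x ^ 2 * x ^ 10 := mul_le_mul_of_nonneg_left h4 (by positivity)
        have h6 : x ^ 2 * 2 ≤ x ^ 2 * (x ^ 2 * x ^ 10) :=
          mul_le_mul_of_nonneg_left (by linarith) (by positivity)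
        rw [h3]
        linarith
      linarith
    exact_mod_cast h1
  · -- the first inequality
    have h1 : ((a : ℝ) ^ 2 + 1) * ((b : ℝ) ^ 2 + 1) * h + 30 * N * ((a : ℝ) ^ 2 * (((b : ℝ) ^ 2) ^ 3 +
        (a : ℝ) ^ 2 * (b : ℝ) ^ 2 + ((a : ℝ) ^ 2) ^ 2)) ≤ n := by
      have c1 : ((b : ℝ) ^ 2) ^ 3 ≤ (9 * x ^ 2) ^ 3 := pow_le_pow_left₀ (by positivity) b2 3
      have c2 : (a : ℝ) ^ 2 * (b : ℝ) ^ 2 ≤ (2 * x ^ 4) * (9 * x ^ 2) :=
        mul_le_mul asq2 b2 (by positivity) (by positivity)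
      have c3 : ((a : ℝ) ^ 2) ^ 2 ≤ (2 * x ^ 4) ^ 2 := pow_le_pow_left₀ (by positivity) asq2 2
      have c4 : ((b : ℝ) ^ 2) ^ 3 + (a : ℝ) ^ 2 * (b : ℝ) ^ 2 + ((a : ℝ) ^ 2) ^ 2 ≤
          5 * x ^ 8 := by
        have d1 : (9 * x ^ 2) ^ 3 + (2 * x ^ 4) * (9 * x ^ 2) + (2 * x ^ 4) ^ 2 =
            747 * x ^ 6 + 4 * x ^ 8 := by ring
        have d2 : 747 * x ^ 6 ≤ x ^ 8 := by
          have d3 : x ^ 8 = x ^ 2 * x ^ 6 := by ring
          rw [d3]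
          exact mul_le_mul_of_nonneg_right (by linarith) (by positivity)
        linarith
      have c5 : (a : ℝ) ^ 2 * (((b : ℝ) ^ 2) ^ 3 + (a : ℝ) ^ 2 * (b : ℝ) ^ 2 + ((a : ℝ) ^ 2) ^ 2) ≤
          (2 * x ^ 4) * (5 * x ^ 8) := mul_le_mul asq2 c4 (by positivity) (by positivity)
      have c6 : 30 * (N : ℝ) * ((a : ℝ) ^ 2 * (((b : ℝ) ^ 2) ^ 3 + (a : ℝ) ^ 2 * (b : ℝ) ^ 2 +
          ((a : ℝ) ^ 2) ^ 2)) ≤ 30 * L * ((2 * x ^ 4) * (5 * x ^ 8)) :=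
        mul_le_mul (by linarith) c5 (by positivity) (by positivity)
      have c7 : 30 * L * ((2 * x ^ 4) * (5 * x ^ 8)) = 300 * x ^ 12 * L := by ring
      have c8 : 300 * x ^ 12 * L ≤ B := by
        rw [hB]
        have : 0 ≤ x ^ 12 * L := by positivity
        linarith
      have c9 : ((a : ℝ) ^ 2 + 1) * ((b : ℝ) ^ 2 + 1) * h = ((a : ℝ) ^ 2 + 1) * G := by
        rw [hG]
        ring
      rw [c9, hn]
      linarith
    exact_mod_cast h1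
  · -- the second inequality
    have d1 : (a : ℝ) ^ 2 * (b : ℝ) ^ 2 * h = ((a : ℝ) ^ 2 + 1) * G - ((a : ℝ) ^ 2 + 1) * h -
        (b : ℝ) ^ 2 * h := by
      rw [hG]
      ring
    have d2 : α ^ 2 - 4 * K * α ≤ (a : ℝ) ^ 2 := by
      have h1 : (α - 2 * K) ^ 2 ≤ (a : ℝ) ^ 2 := pow_le_pow_left₀ (by linarith) ha4 2
      have h2 : (α - 2 * K) ^ 2 = α ^ 2 - 4 * K * α + 4 * (K : ℝ) ^ 2 := by ring
      have h3 : 0 ≤ 4 * (K : ℝ) ^ 2 := by positivity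
      linarith
    have d3 : α * G ≤ 8 * x ^ 12 := by
      have h1 : α * G * (x ^ 2 / 8) ≤ 8 * x ^ 12 * (x ^ 2 / 8) := by
        have h2 : α * G * (x ^ 2 / 8) ≤ α * G * α := mul_le_mul_of_nonneg_left α1 (by positivity)
        have h3 : α * G * α = (A + 1) * G - G := by rw [← αsq]; ring
        have h4 : 8 * x ^ 12 * (x ^ 2 / 8) = x ^ 14 := by ring
        rw [AG] at h3
        linarith
      exact le_of_mul_le_mul_right h1 (by positivity)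
    have d4 : x ^ 14 - B - 32 * (x ^ 12 * L) ≤ ((a : ℝ) ^ 2 + 1) * G := by
      have h1 : (α ^ 2 - 4 * K * α + 1) * G ≤ ((a : ℝ) ^ 2 + 1) * G :=
        mul_le_mul_of_nonneg_right (by linarith) G0.le
      have h2 : (α ^ 2 - 4 * K * α + 1) * G = (A + 1) * G - 4 * K * (α * G) := by
        rw [← αsq]; ring
      have h3 : 4 * (K : ℝ) * (α * G) ≤ 4 * L * (8 * x ^ 12) :=
        mul_le_mul (by linarith) d3 (by positivity) (by positivity)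
      rw [AG] at h2
      have h4 : 4 * L * (8 * x ^ 12) = 32 * (x ^ 12 * L) := by ring
      linarith
    have d5 : ((a : ℝ) ^ 2 + 1) * h ≤ x ^ 12 := by
      have h1 : ((a : ℝ) ^ 2 + 1) * h * x ^ 2 ≤ x ^ 12 * x ^ 2 := by
        have h2 : ((a : ℝ) ^ 2 + 1) * h * x ^ 2 ≤ ((a : ℝ) ^ 2 + 1) * h * ((b : ℝ) ^ 2 + 1) :=
          mul_le_mul_of_nonneg_left (by linarith) (by positivity)
        have h3 : ((a : ℝ) ^ 2 + 1) * h * ((b : ℝ) ^ 2 + 1) = ((a : ℝ) ^ 2 + 1) * G := by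
          rw [hG]; ring
        have h4 : x ^ 12 * x ^ 2 = x ^ 14 := by ring
        linarith
      exact le_of_mul_le_mul_right h1 (by positivity)
    have d6 : (b : ℝ) ^ 2 * h ≤ x ^ 12 := by
      have h1 : (b : ℝ) ^ 2 * h ≤ (9 * x ^ 2) * (3 * x ^ 8) :=
        mul_le_mul b2 hh2 (by positivity) (by positivity)
      have h2 : (9 * x ^ 2) * (3 * x ^ 8) = 27 * x ^ 10 := by ring
      have h3 : 27 * x ^ 10 ≤ x ^ 2 * x ^ 10 :=
        mul_le_mul_of_nonneg_right (by linarith) (by positivity)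
      linarith
    have d7 : 432 * (x ^ 12 * L) + 2 * x ^ 12 ≤ x ^ 12 * L ^ 2 := by
      have h1 : 432 * L + 2 ≤ L ^ 2 := by
        have h0 := mul_le_mul_of_nonneg_right hL (show 0 ≤ L by linarith)
        rw [sq]
        linarith
      have := mul_le_mul_of_nonneg_left h1 e12.le
      linarith
    rw [d1]
    have d8 : B = 400 * (x ^ 12 * L) := by rw [hB]; ring
    linarith

theorem num2 : ∃ n₀ : ℕ, ∀ n : ℕ, n₀ ≤ n → ∀ N K b h : ℕ, 1 ≤ N → (N : ℝ) ≤ Real.log n →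
  1 ≤ K → (K : ℝ) ≤ Real.log n → b.Prime → (n : ℝ) ^ (1 / 14 : ℝ) ≤ b →
  (b : ℝ) ≤ 3 * (n : ℝ) ^ (1 / 14 : ℝ) → (n : ℝ) ^ (4 / 7 : ℝ) / 2 ≤ h →
  (h : ℝ) ≤ 3 * (n : ℝ) ^ (4 / 7 : ℝ) →
    ∃ a : ℕ, 3 ≤ a ∧ a ≤ n ∧ K ∣ a + 1 ∧ ¬ b ∣ a ∧
      (a ^ 2 + 1) * (b ^ 2 + 1) * h +
        30 * N * (a ^ 2 * ((b ^ 2) ^ 3 + a ^ 2 * b ^ 2 + (a ^ 2) ^ 2)) ≤ n ∧
      (n : ℝ) - (n : ℝ) ^ (6 / 7 : ℝ) * Real.log n ^ 2 ≤ (a : ℝ) ^ 2 * (b : ℝ) ^ 2 * h := by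
  have h1 : ∀ᶠ y : ℝ in Filter.atTop, 444 ≤ Real.log y :=
    Real.tendsto_log_atTop.eventually_ge_atTop 444
  have h2 : ∀ᶠ y : ℝ in Filter.atTop, 100 * Real.log y ≤ y ^ (1 / 14 : ℝ) := by
    have h3 := (isLittleO_log_rpow_atTop (show (0 : ℝ) < 1 / 14 by norm_num)).bound
      (show (0 : ℝ) < 1 / 100 by norm_num)
    filter_upwards [h3, h1, Filter.eventually_ge_atTop 0] with y hy hy1 hy0
    rw [Real.norm_of_nonneg (by linarith), Real.norm_of_nonneg (Real.rpow_nonneg hy0 _)] at hy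
    linarith
  have h4 := tendsto_natCast_atTop_atTop (R := ℝ) |>.eventually
    (h1.and (h2.and (Filter.eventually_ge_atTop 1)))
  obtain ⟨n₀, hn₀⟩ := Filter.eventually_atTop.1 h4
  refine ⟨n₀, fun n hn N K b h hN1 hN hK1 hK hb hb1 hb2 hh1 hh2 => ?_⟩
  obtain ⟨g1, g2, g3⟩ := hn₀ n hn
  have hn0 : (0 : ℝ) ≤ n := Nat.cast_nonneg n
  have pw : ∀ m : ℕ, ((n : ℝ) ^ (1 / 14 : ℝ)) ^ m = (n : ℝ) ^ ((m : ℝ) / 14) := by
    intro m
    rw [← Real.rpow_natCast, ← Real.rpow_mul hn0]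
    congr 1
    ring
  have p14 : (n : ℝ) = ((n : ℝ) ^ (1 / 14 : ℝ)) ^ 14 := by
    rw [pw]
    norm_num
  have p8 : (n : ℝ) ^ (4 / 7 : ℝ) = ((n : ℝ) ^ (1 / 14 : ℝ)) ^ 8 := by
    rw [pw]
    norm_num
  have p12 : (n : ℝ) ^ (6 / 7 : ℝ) = ((n : ℝ) ^ (1 / 14 : ℝ)) ^ 12 := by
    rw [pw]
    norm_num
  rw [p8] at hh1 hh2
  obtain ⟨a, a1, a2, a3, a4, a5, a6⟩ := core n N K b h _ (Real.log n) g1 g2 p14 hN hK1 hK hb1 hb2
    hh1 hh2
  refine ⟨a, a1, a2, a3, a4, a5, ?_⟩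
  rw [p12]
  rw [← p14] at a6
  exact a6

theorem t_NUM2 : Pool.Agent.K1H34.Had2.S_NUM2 := num2

end Pool.Agent.K1H16.Had2
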